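import Pool.Agent.Q61.DP.Stm

/-!
# Project DP (helper61), job DP-10: the developing map is a local homeomorphism
-/

namespace Pool.Agent.Q129.DP

open Pool.Agent.Q61.DP MeasureTheory Topology Filter Set Metric

lemma den_pos {u : ℂ → ℝ} {a b : ℂ → ℂ} (h : Dev u a b) (z : ℂ) :
    0 < ‖a z‖ ^ 2 + ‖b z‖ ^ 2 := by
  rw [h.nm z]
  positivity

lemma Bl_cont {u : ℂ → ℝ} {a b : ℂ → ℂ} (h : Dev u a b) : Continuous (Bl a b) := by
  have ha : Continuous a := h.da.continuous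
  have hb : Continuous b := h.db.continuous
  have hsc : Continuous (fun z => (starRingEnd ℂ) (a z)) := Complex.continuous_conj.comp ha
  have hd : Continuous (fun z => (‖a z‖ ^ 2 + ‖b z‖ ^ 2)⁻¹) :=
    ((ha.norm.pow 2).add (hb.norm.pow 2)).inv₀ fun z => (den_pos h z).ne'
  have hm := hb.mul hsc
  have h1 : Continuous (fun z => 2 * (b z * (starRingEnd ℂ) (a z)).re) :=
    continuous_const.mul (Complex.continuous_re.comp hm)
  have h2 : Continuous (fun z => 2 * (b z * (starRingEnd ℂ) (a z)).im) :=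
    continuous_const.mul (Complex.continuous_im.comp hm)
  have h3 : Continuous (fun z => ‖a z‖ ^ 2 - ‖b z‖ ^ 2) :=
    (ha.norm.pow 2).sub (hb.norm.pow 2)
  have hv : Continuous (fun z => (!₂[2 * (b z * (starRingEnd ℂ) (a z)).re,
      2 * (b z * (starRingEnd ℂ) (a z)).im, ‖a z‖ ^ 2 - ‖b z‖ ^ 2] : E3)) := by
    refine (PiLp.continuous_toLp 2 (fun _ : Fin 3 => ℝ)).comp ?_
    refine continuous_pi fun i => ?_
    fin_cases i
    · exact h1
    · exact h2
    · exact h3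
  exact hd.smul hv

lemma Bl_norm {u : ℂ → ℝ} {a b : ℂ → ℂ} (h : Dev u a b) (z : ℂ) : ‖Bl a b z‖ = 1 := by
  have hd := den_pos h z
  unfold Bl
  rw [norm_smul, EuclideanSpace.norm_eq, norm_inv, Real.norm_of_nonneg hd.le, Fin.sum_univ_three]
  simp only [Real.norm_eq_abs, sq_abs]
  have hab : (b z * (starRingEnd ℂ) (a z)).re ^ 2 + (b z * (starRingEnd ℂ) (a z)).im ^ 2 =
      ‖b z‖ ^ 2 * ‖a z‖ ^ 2 := by
    have h1 : ‖b z * (starRingEnd ℂ) (a z)‖ ^ 2 =
        (b z * (starRingEnd ℂ) (a z)).re ^ 2 + (b z * (starRingEnd ℂ) (a z)).im ^ 2 := by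
      rw [Complex.sq_norm, Complex.normSq_apply]; ring
    rw [← h1, norm_mul, RCLike.norm_conj]; ring
  have e : (2 * (b z * (starRingEnd ℂ) (a z)).re) ^ 2 +
      (2 * (b z * (starRingEnd ℂ) (a z)).im) ^ 2 + (‖a z‖ ^ 2 - ‖b z‖ ^ 2) ^ 2 =
      (‖a z‖ ^ 2 + ‖b z‖ ^ 2) ^ 2 := by
    have : (2 * (b z * (starRingEnd ℂ) (a z)).re) ^ 2 +
      (2 * (b z * (starRingEnd ℂ) (a z)).im) ^ 2 = 4 * (‖b z‖ ^ 2 * ‖a z‖ ^ 2) := by
      rw [← hab]; ring
    rw [this]; ring
  have e2 : (!₂[2 * (b z * (starRingEnd ℂ) (a z)).re, 2 * (b z * (starRingEnd ℂ) (a z)).im,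
      ‖a z‖ ^ 2 - ‖b z‖ ^ 2] : E3) 0 ^ 2 +
      (!₂[2 * (b z * (starRingEnd ℂ) (a z)).re, 2 * (b z * (starRingEnd ℂ) (a z)).im,
      ‖a z‖ ^ 2 - ‖b z‖ ^ 2] : E3) 1 ^ 2 +
      (!₂[2 * (b z * (starRingEnd ℂ) (a z)).re, 2 * (b z * (starRingEnd ℂ) (a z)).im,
      ‖a z‖ ^ 2 - ‖b z‖ ^ 2] : E3) 2 ^ 2 = (‖a z‖ ^ 2 + ‖b z‖ ^ 2) ^ 2 := e
  rw [e2, Real.sqrt_sq hd.le, inv_mul_cancel₀ hd.ne']

theorem lhp (hS : S_SIG) (hF : S_FRAME) : S_LHP := by
  intro u a₀ b₀ h₀
  refine ⟨Bl_cont h₀, Bl_norm h₀, fun z O hO => ?_⟩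
  obtain ⟨e1, e2, a, b, hD, hFR⟩ := hF u a₀ b₀ h₀ (Bl a₀ b₀ z) (Bl_norm h₀ z)
  set P := Bl a₀ b₀ with hP
  set n := P z with hn
  obtain ⟨hsc, hs1, hs2, hstc, hs3⟩ := hS e1 e2 n hFR.1
  obtain ⟨h4, h5, h6⟩ := hs3 u a b P hD hFR (Bl_norm h₀)
  have hn1 : ‖n‖ = 1 := Bl_norm h₀ z
  have hn0 : n ≠ 0 := by
    intro h
    rw [h, norm_zero] at hn1
    exact zero_ne_one hn1
  have hnn : n ≠ -n := by
    intro h
    have : (2 : ℝ) • n = 0 := by
      rw [two_smul]
      nth_rewrite 2 [h]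
      exact add_neg_cancel n
    rcases smul_eq_zero.1 this with h | h
    · norm_num at h
    · exact hn0 h
  have haz : a z ≠ 0 := fun h => hnn ((h5 z).2 h)
  have hsg0 : sg e1 e2 n 0 = n := by simp [sg]
  have hbz : b z = 0 := by
    have := (h4 z 0).1 (by rw [hsg0])
    simpa using this
  -- the quotient
  set f : ℂ → ℂ := fun z => b z / a z with hf
  have hstr : HasStrictDerivAt f ((deriv b z * a z - b z * deriv a z) / a z ^ 2) z := by
    have ha' : HasStrictDerivAt a (deriv a z) z :=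
      (hD.da.analyticAt z).hasStrictDerivAt
    have hb' : HasStrictDerivAt b (deriv b z) z :=
      (hD.db.analyticAt z).hasStrictDerivAt
    exact hb'.fun_div ha' haz
  have hne : (deriv b z * a z - b z * deriv a z) / a z ^ 2 ≠ 0 := by
    have : deriv b z * a z - b z * deriv a z = 1 := by
      rw [← hD.wr z]; ring
    rw [this]
    exact div_ne_zero one_ne_zero (pow_ne_zero 2 haz)
  have hstr2 := hstr.hasStrictFDerivAt_equiv hne
  set φ := hstr2.toOpenPartialHomeomorph f with hφ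
  have hφf : ∀ w, φ w = f w := fun w => rfl
  have hzs : z ∈ φ.source := hstr2.mem_toOpenPartialHomeomorph_source
  have hfz : f z = 0 := by simp [hf, hbz]
  have h0t : (0:ℂ) ∈ φ.target := by
    rw [← hfz, ← hφf]
    exact φ.map_source hzs
  have hsz : φ.symm 0 = z := by
    rw [← hfz, ← hφf]
    exact φ.left_inv hzs
  have hOa : O ∩ {w | a w ≠ 0} ∈ 𝓝 z :=
    inter_mem hO (hD.da.continuous.continuousAt.eventually_ne haz)
  have hW : φ.target ∩ φ.symm ⁻¹' (O ∩ {w | a w ≠ 0}) ∈ 𝓝 (0:ℂ) := by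
    refine inter_mem (φ.open_target.mem_nhds h0t) ?_
    refine (φ.symm.continuousAt h0t).preimage_mem_nhds ?_
    rw [hsz]
    exact hOa
  obtain ⟨δ, hδ, hball⟩ := Metric.mem_nhds_iff.1 hW
  have hε : 0 < min (Real.pi / 2) (2 * Real.arctan δ) := by
    refine lt_min (by positivity) ?_
    have := Real.arctan_strictMono hδ
    rw [Real.arctan_zero] at this
    linarith
  set ε := min (Real.pi / 2) (2 * Real.arctan δ) with hεd
  have hcap : ∀ w ∈ capA n ε, w ≠ -n ∧ st e1 e2 n w ∈ ball (0:ℂ) δ ∧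
      sg e1 e2 n (st e1 e2 n w) = w := by
    intro w hw
    have hw1 : w ≠ -n := by
      intro h
      have h2 := hw.2
      rw [h, InnerProductGeometry.angle_neg_self_of_nonzero hn0] at h2
      have : ε ≤ Real.pi / 2 := min_le_left _ _
      linarith [Real.pi_pos]
    have hsw := hs2 w hw.1 hw1
    refine ⟨hw1, ?_, hsw⟩
    have h7 := (hs1 (st e1 e2 n w)).2.2.1
    rw [hsw] at h7
    have h8 : 2 * Real.arctan ‖st e1 e2 n w‖ < 2 * Real.arctan δ := by
      rw [← h7]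
      exact lt_of_lt_of_le hw.2 (min_le_right _ _)
    have h9 : Real.arctan ‖st e1 e2 n w‖ < Real.arctan δ := by linarith
    rw [mem_ball_zero_iff]
    exact Real.arctan_strictMono.lt_iff_lt.1 h9
  refine ⟨ε, hε, min_le_left _ _, fun w => φ.symm (st e1 e2 n w), ?_, ?_, ?_⟩
  · refine ContinuousOn.comp (t := φ.target) φ.symm.continuousOn ?_ ?_
    · exact hstc.mono fun w hw => ⟨hw.1, (hcap w hw).1⟩
    · exact fun w hw => (hball (hcap w hw).2.1).1
  · intro w hw
    obtain ⟨hw1, hw2, hw3⟩ := hcap w hw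
    have hm := hball hw2
    refine ⟨?_, hm.2.1⟩
    have h7 : f (φ.symm (st e1 e2 n w)) = st e1 e2 n w := by
      rw [← hφf]
      exact φ.right_inv hm.1
    have h8 : b (φ.symm (st e1 e2 n w)) = st e1 e2 n w * a (φ.symm (st e1 e2 n w)) :=
      (div_eq_iff hm.2.2).1 h7
    rw [(h4 _ _).2 h8, hw3]
  · refine ⟨(φ.source ∩ {w | a w ≠ 0}) ∩ {w | InnerProductGeometry.angle (P w) n < ε}, ?_, ?_⟩
    · refine inter_mem (inter_mem (φ.open_source.mem_nhds hzs)
        (hD.da.continuous.continuousAt.eventually_ne haz)) ?_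
      have hca : ContinuousAt (fun w => InnerProductGeometry.angle (P w) n) z := by
        have hPz : P z ≠ 0 := hn0
        have := InnerProductGeometry.continuousAt_angle (x := (P z, n)) hPz hn0
        exact ContinuousAt.comp (f := fun w => (P w, n)) this
          (((Bl_cont h₀).continuousAt).prodMk continuousAt_const)
      have hval : InnerProductGeometry.angle (P z) n < ε := by
        rw [← hn, InnerProductGeometry.angle_self hn0]
        exact hε
      exact hca.eventually_lt continuousAt_const hval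
    · rintro z' ⟨⟨hz1, hz2⟩, hz3⟩
      refine ⟨⟨Bl_norm h₀ z', hz3⟩, ?_⟩
      have h7 : P z' = sg e1 e2 n (f z') := by
        rw [h4]
        simp only [hf]
        rw [div_mul_cancel₀ _ hz2]
      show φ.symm (st e1 e2 n (P z')) = z'
      rw [h7, (hs1 (f z')).2.2.2, ← hφf]
      exact φ.left_inv hz1

end Pool.Agent.Q129.DP
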