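import Pool.Agent.Q61.DP.Stm

/-!
# Project DP (helper61), job DP-44: two singular points force a large distance
-/

namespace Pool.Agent.Q129.DP

open Pool.Agent.Q61.DP MeasureTheory Topology Filter Set Metric

lemma cos_angle_unit {x y : E3} (hx : ‖x‖ = 1) (hy : ‖y‖ = 1) :
    Real.cos (InnerProductGeometry.angle x y) = inner ℝ x y := by
  rw [InnerProductGeometry.cos_angle, hx, hy]; simp

/-- membership in a cap by inner products -/
lemma mem_cap_iff {n : E3} {r : ℝ} (hn : ‖n‖ = 1) (hr0 : 0 < r) (hr : r ≤ Real.pi / 2) {w : E3}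
    (hw : ‖w‖ = 1) : w ∈ capA n r ↔ Real.cos r < inner ℝ w n := by
  rw [← cos_angle_unit hw hn]
  constructor
  · intro h
    exact Real.strictAntiOn_cos ⟨InnerProductGeometry.angle_nonneg _ _,
      InnerProductGeometry.angle_le_pi _ _⟩ ⟨hr0.le, by linarith [Real.pi_pos]⟩ h.2
  · intro h
    refine ⟨hw, ?_⟩
    exact (Real.strictAntiOn_cos.lt_iff_gt ⟨hr0.le, by linarith [Real.pi_pos]⟩
      ⟨InnerProductGeometry.angle_nonneg _ _,
      InnerProductGeometry.angle_le_pi _ _⟩).1 h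

/-- the inner product of a point of the sphere in stereographic coordinates -/
lemma inner_sg (e1 e2 f n : E3) (w : ℂ) :
    inner ℝ (sg e1 e2 f w) n * (1 + ‖w‖ ^ 2) =
      2 * w.re * inner ℝ e1 n + 2 * w.im * inner ℝ e2 n + (1 - ‖w‖ ^ 2) * inner ℝ f n := by
  have h : (1 + ‖w‖ ^ 2 : ℝ) ≠ 0 := by positivity
  unfold sg
  rw [real_inner_smul_left, inner_add_left, inner_add_left, real_inner_smul_left,
    real_inner_smul_left, real_inner_smul_left]
  field_simp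

/-- the sum of squares of the coordinates -/
lemma sum_sq (hS : S_SIG) {e1 e2 f : E3} (hON : ON e1 e2 f) {n : E3} (hn : ‖n‖ = 1)
    (hnf : 0 < inner ℝ n f) :
    (inner ℝ e1 n) ^ 2 + (inner ℝ e2 n) ^ 2 + (inner ℝ f n) ^ 2 = (1 : ℝ) := by
  obtain ⟨-, hs1, hs2, -, -⟩ := hS e1 e2 f hON
  have hne : n ≠ -f := by
    intro h
    rw [h, inner_neg_left, real_inner_self_eq_norm_sq, hON.2.2.1] at hnf
    norm_num at hnf
  have h1 := hs2 n hn hne
  have h2 := (hs1 (st e1 e2 f n)).2.1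
  rw [h1] at h2
  have h3 : ‖st e1 e2 f n‖ ^ 2 * (1 + inner ℝ n f) ^ 2 =
      (inner ℝ n e1) ^ 2 + (inner ℝ n e2) ^ 2 := by
    have h4 : (1 + inner ℝ n f : ℝ) ≠ 0 := by positivity
    have h5 : st e1 e2 f n * ((1 + inner ℝ n f : ℝ) : ℂ) =
        (inner ℝ n e1 : ℝ) + (inner ℝ n e2 : ℝ) * Complex.I := by
      unfold st
      rw [div_mul_cancel₀]
      exact_mod_cast h4
    have h6 : ‖st e1 e2 f n * ((1 + inner ℝ n f : ℝ) : ℂ)‖ ^ 2 =
        (inner ℝ n e1) ^ 2 + (inner ℝ n e2) ^ 2 := by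
      rw [h5, Complex.sq_norm, Complex.normSq_apply]
      simp; ring
    rw [← h6, norm_mul, mul_pow, Complex.norm_real, Real.norm_eq_abs, sq_abs]
  have h7 : (1 + ‖st e1 e2 f n‖ ^ 2 : ℝ) ≠ 0 := by positivity
  rw [eq_div_iff h7] at h2
  rw [real_inner_comm n e1, real_inner_comm n e2, real_inner_comm n f]
  rw [real_inner_comm f n] at *
  nlinarith [h3, h2]

/-- the cap in stereographic coordinates -/
lemma key (hS : S_SIG) {e1 e2 f : E3} (hON : ON e1 e2 f) {n : E3} (hn : ‖n‖ = 1)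
    (hnf : 0 < inner ℝ n f) {m : ℝ} (hm0 : 0 ≤ m) (w : ℂ) :
    (inner ℝ (sg e1 e2 f w) n - m) * ((1 + ‖w‖ ^ 2) * (inner ℝ n f + m)) =
      (1 - m ^ 2) - (inner ℝ n f + m) ^ 2 *
        ‖w - (((inner ℝ n e1 : ℝ) : ℂ) + ((inner ℝ n e2 : ℝ) : ℂ) * Complex.I) /
          ((inner ℝ n f + m : ℝ) : ℂ)‖ ^ 2 := by
  have h1 := inner_sg e1 e2 f n w
  have h2 := sum_sq hS hON hn hnf
  have hκ : (inner ℝ n f + m : ℝ) ≠ 0 := by positivity
  have h3 : (inner ℝ n f + m) ^ 2 *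
        ‖w - (((inner ℝ n e1 : ℝ) : ℂ) + ((inner ℝ n e2 : ℝ) : ℂ) * Complex.I) /
          ((inner ℝ n f + m : ℝ) : ℂ)‖ ^ 2 =
        ((inner ℝ n f + m) * w.re - inner ℝ n e1) ^ 2 +
        ((inner ℝ n f + m) * w.im - inner ℝ n e2) ^ 2 := by
    have h4 : ((inner ℝ n f + m : ℝ) : ℂ) *
        (w - (((inner ℝ n e1 : ℝ) : ℂ) + ((inner ℝ n e2 : ℝ) : ℂ) * Complex.I) /
          ((inner ℝ n f + m : ℝ) : ℂ)) =
        ((inner ℝ n f + m : ℝ) : ℂ) * w -
          (((inner ℝ n e1 : ℝ) : ℂ) + ((inner ℝ n e2 : ℝ) : ℂ) * Complex.I) := by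
      have : ((inner ℝ n f + m : ℝ) : ℂ) ≠ 0 := by exact_mod_cast hκ
      rw [mul_sub, mul_div_cancel₀ _ this]
    have h5 : ‖((inner ℝ n f + m : ℝ) : ℂ) *
        (w - (((inner ℝ n e1 : ℝ) : ℂ) + ((inner ℝ n e2 : ℝ) : ℂ) * Complex.I) /
          ((inner ℝ n f + m : ℝ) : ℂ))‖ ^ 2 = (inner ℝ n f + m) ^ 2 *
        ‖w - (((inner ℝ n e1 : ℝ) : ℂ) + ((inner ℝ n e2 : ℝ) : ℂ) * Complex.I) /
          ((inner ℝ n f + m : ℝ) : ℂ)‖ ^ 2 := by
      rw [norm_mul, mul_pow, Complex.norm_real, Real.norm_eq_abs, sq_abs]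
    rw [← h5, h4, Complex.sq_norm, Complex.normSq_apply]
    simp only [Complex.sub_re, Complex.sub_im, Complex.re_ofReal_mul, Complex.im_ofReal_mul,
      Complex.add_re, Complex.add_im, Complex.ofReal_re, Complex.ofReal_im, Complex.I_re,
      Complex.I_im]
    ring
  rw [h3]
  have h6 : ‖w‖ ^ 2 = w.re ^ 2 + w.im ^ 2 := by
    rw [Complex.sq_norm, Complex.normSq_apply]; ring
  rw [real_inner_comm n e1, real_inner_comm n e2, real_inner_comm n f] at h1 h2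
  rw [h6] at h1 ⊢
  linear_combination (inner ℝ n f + m) * h1 + h2

theorem p5 (hF : S_FRAME) (hS : S_SIG) (hL : S_LHP) (hR : S_RAD) (hU : S_UNIQ) (hC : S_CONV)
    (hP : S_P4) : S_P5 := by
  intro u a₀ b₀ h₀ hd z c c2 hc hc2
  by_contra hcon
  rw [not_or] at hcon
  obtain ⟨hne1, hne2⟩ := hcon
  set P := Bl a₀ b₀ with hPd
  have hLH : LH P := hL u a₀ b₀ h₀
  obtain ⟨hr0, hr2, -⟩ := hR P hLH z
  set r := rad P z with hr
  set n := P z with hn
  have hn1 : ‖n‖ = 1 := hLH.2.1 z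
  obtain ⟨hc1, hca, g, hg, hgt⟩ := hc
  obtain ⟨hd1, hda, g2, hg2, hg2t⟩ := hc2
  rw [← hr, ← hn] at hca hgt hda hg2t
  have hn0 : n ≠ 0 := by
    intro h
    rw [h, norm_zero] at hn1
    exact zero_ne_one hn1
  have hncap : n ∈ capA n r := ⟨hn1, by rw [InnerProductGeometry.angle_self hn0]; exact hr0⟩
  have hpre : IsPreconnected (capA n r) := by
    have := hC n n n r r r hr2 hr2 hr2
    simpa using this
  have hagree : ∀ w ∈ capA n r, g w = g2 w :=
    hU P hLH g g2 (capA n r) hpre hg.1 hg2.1 ⟨n, hncap, by rw [hg.2, hg2.2]⟩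
  have hg2t' : Tendsto g (𝓝[capA n r] c2) (cocompact ℂ) := by
    refine hg2t.congr' ?_
    filter_upwards [self_mem_nhdsWithin] with w hw
    exact (hagree w hw).symm
  set m := Real.cos r with hm
  have hm0 : 0 ≤ m := Real.cos_nonneg_of_neg_pi_div_two_le_of_le (by linarith) hr2
  have hm1 : m < 1 := by
    rw [hm, ← Real.cos_zero]
    exact Real.strictAntiOn_cos ⟨le_refl _, Real.pi_pos.le⟩ ⟨hr0.le, by linarith [Real.pi_pos]⟩ hr0
  have hcn : inner ℝ c n = m := by rw [← cos_angle_unit hc1 hn1, hca]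
  have hdn : inner ℝ c2 n = m := by rw [← cos_angle_unit hd1 hn1, hda]
  have hq : -1 < (inner ℝ c c2 : ℝ) := by
    have h1 : -1 ≤ (inner ℝ c c2 : ℝ) := by
      have := abs_real_inner_le_norm c c2
      rw [hc1, hd1, abs_le] at this
      linarith
    rcases h1.lt_or_eq with h | h
    · exact h
    · exfalso
      apply hne2
      have h2 : ‖c2 + c‖ ^ 2 = 0 := by
        rw [norm_add_sq_real, hc1, hd1, real_inner_comm, ← h]; norm_num
      have h3 : c2 + c = 0 := by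
        rw [sq_eq_zero_iff, norm_eq_zero] at h2; exact h2
      exact eq_neg_of_add_eq_zero_left h3
  set v := c + c2 + n with hv
  have hvn : inner ℝ n v = 2 * m + 1 := by
    rw [hv, inner_add_right, inner_add_right, real_inner_comm c n, real_inner_comm c2 n, hcn, hdn,
      real_inner_self_eq_norm_sq, hn1]
    ring
  have hvc : inner ℝ c v = 1 + inner ℝ c c2 + m := by
    rw [hv, inner_add_right, inner_add_right, hcn, real_inner_self_eq_norm_sq, hc1]
    ring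
  have hvd : inner ℝ c2 v = 1 + inner ℝ c c2 + m := by
    rw [hv, inner_add_right, inner_add_right, hdn, real_inner_self_eq_norm_sq, hd1,
      real_inner_comm c c2]
    ring
  have hv0 : v ≠ 0 := by
    intro h
    rw [h, inner_zero_right] at hvn
    linarith
  have hvp : 0 < ‖v‖ := norm_pos_iff.2 hv0
  set f := (‖v‖)⁻¹ • v with hf
  have hf1 : ‖f‖ = 1 := by
    rw [hf, norm_smul, norm_inv, norm_norm, inv_mul_cancel₀ hvp.ne']
  have hnf : 0 < inner ℝ n f := by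
    rw [hf, real_inner_smul_right, hvn]; positivity
  have hcf : 0 < inner ℝ c f := by
    rw [hf, real_inner_smul_right, hvc]
    have : 0 < 1 + inner ℝ c c2 + m := by linarith
    positivity
  have hdf : 0 < inner ℝ c2 f := by
    rw [hf, real_inner_smul_right, hvd]
    have : 0 < 1 + inner ℝ c c2 + m := by linarith
    positivity
  obtain ⟨e1, e2, a, b, hD, hFR⟩ := hF u a₀ b₀ h₀ f hf1
  have hON := hFR.1
  obtain ⟨hsc, hs1, hs2, hstc, hs3⟩ := hS e1 e2 f hON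
  obtain ⟨h4, -, -⟩ := hs3 u a b P hD hFR hLH.2.1
  have hneg : ∀ x : E3, 0 < inner ℝ x f → x ≠ -f := by
    intro x hx h
    rw [h, inner_neg_left, real_inner_self_eq_norm_sq, hf1] at hx
    norm_num at hx
  have hsc0 : sg e1 e2 f (st e1 e2 f c) = c := hs2 c hc1 (hneg c hcf)
  have hsc1 : sg e1 e2 f (st e1 e2 f c2) = c2 := hs2 c2 hd1 (hneg c2 hdf)
  have hlt : ∀ x : E3, 0 < inner ℝ x f → sg e1 e2 f (st e1 e2 f x) = x →
      ‖st e1 e2 f x‖ < 1 := by
    intro x hx hx2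
    have h5 := (hs1 (st e1 e2 f x)).2.1
    rw [hx2] at h5
    rw [h5] at hx
    have h6 : 0 < 1 - ‖st e1 e2 f x‖ ^ 2 := by
      by_contra h7
      rw [not_lt] at h7
      have := div_nonpos_of_nonpos_of_nonneg h7
        (by positivity : (0:ℝ) ≤ 1 + ‖st e1 e2 f x‖ ^ 2)
      linarith
    by_contra h8
    rw [not_lt] at h8
    nlinarith
  set κ := inner ℝ n f + m with hκ
  have hκ0 : 0 < κ := by positivity
  set w₁ : ℂ := (((inner ℝ n e1 : ℝ) : ℂ) + ((inner ℝ n e2 : ℝ) : ℂ) * Complex.I) /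
          ((κ : ℝ) : ℂ) with hw₁
  have hK : ∀ w : ℂ, (inner ℝ (sg e1 e2 f w) n - m) * ((1 + ‖w‖ ^ 2) * κ) =
      (1 - m ^ 2) - κ ^ 2 * ‖w - w₁‖ ^ 2 := fun w => key hS hON hn1 hnf hm0 w
  set ρ := Real.sqrt (1 - m ^ 2) / κ with hρ
  have hm2 : 0 < 1 - m ^ 2 := by nlinarith
  have hρ0 : 0 < ρ := div_pos (Real.sqrt_pos.2 hm2) hκ0
  have hρ2 : κ ^ 2 * ρ ^ 2 = 1 - m ^ 2 := by
    rw [hρ, div_pow, Real.sq_sqrt hm2.le]
    field_simp
  have hball : ∀ w ∈ ball w₁ ρ, sg e1 e2 f w ∈ capA n r := by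
    intro w hw
    rw [mem_cap_iff hn1 hr0 hr2 (hs1 w).1, ← hm]
    rw [mem_ball, dist_eq_norm] at hw
    have h5 := hK w
    have h6 : 0 < (1 - m ^ 2) - κ ^ 2 * ‖w - w₁‖ ^ 2 := by
      rw [← hρ2]
      have : ‖w - w₁‖ ^ 2 < ρ ^ 2 := pow_lt_pow_left₀ hw (norm_nonneg _) two_ne_zero
      nlinarith [pow_pos hκ0 2]
    rw [← h5] at h6
    have h7 : 0 < (1 + ‖w‖ ^ 2) * κ := by positivity
    have h8 := (pos_iff_pos_of_mul_pos h6).2 h7
    linarith
  have hsph : ∀ w : ℂ, inner ℝ (sg e1 e2 f w) n = m → w ∈ sphere w₁ ρ := by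
    intro w hw
    rw [mem_sphere, dist_eq_norm]
    have h5 := hK w
    rw [hw, sub_self, zero_mul, ← hρ2, ← mul_sub] at h5
    have h6 : ρ ^ 2 - ‖w - w₁‖ ^ 2 = 0 := by
      rcases mul_eq_zero.1 h5.symm with h | h
      · exact absurd h (pow_ne_zero 2 hκ0.ne')
      · exact h
    have h7 : ‖w - w₁‖ ^ 2 = ρ ^ 2 := by linarith
    exact (pow_left_inj₀ (norm_nonneg _) hρ0.le two_ne_zero).1 h7
  have hne : st e1 e2 f c ≠ st e1 e2 f c2 := by
    intro h
    apply hne1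
    rw [← hsc0, ← hsc1, h]
  have htend : ∀ (w : ℂ), Tendsto (sg e1 e2 f) (𝓝[ball w₁ ρ] w)
      (𝓝[capA n r] (sg e1 e2 f w)) := by
    intro w
    refine tendsto_nhdsWithin_iff.2 ⟨?_, ?_⟩
    · exact (hsc.tendsto w).mono_left nhdsWithin_le_nhds
    · filter_upwards [self_mem_nhdsWithin] with x hx using hball x hx
  obtain ⟨x, y, hxy⟩ := hP u a b hD w₁ (st e1 e2 f c) (st e1 e2 f c2) ρ (fun w => g (sg e1 e2 f w))
    hρ0 (hsph _ (by rw [hsc0, hcn])) (hsph _ (by rw [hsc1, hdn])) hne (hlt c hcf hsc0)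
    (hlt c2 hdf hsc1) (hg.1.1.comp hsc.continuousOn hball)
    (fun s hs => (h4 _ s).1 (hg.1.2 _ (hball s hs)))
    (by
      refine hgt.comp ?_
      have := htend (st e1 e2 f c)
      rwa [hsc0] at this)
    (by
      refine hg2t'.comp ?_
      have := htend (st e1 e2 f c2)
      rwa [hsc1] at this)
  exact absurd (hd x y) (not_le.2 hxy)

end Pool.Agent.Q129.DP
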