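import Pool.Agent.Q61.DP.Stm

/-!
# Project DP (helper61), job DP-30: moving away from a singular point
-/

namespace Pool.Agent.Q129.DP

open Pool.Agent.Q61.DP MeasureTheory Topology Filter Set Metric

theorem star (hK : S_KS) (hT : S_TRI) (hR : S_RAD) (hM : S_MV) : S_STAR := by
  intro P hLH hNP z c hs
  obtain ⟨hr0, hr2, g0, hg0, hgz⟩ := hR P hLH z
  obtain ⟨-, hT2, -⟩ := hT P hLH
  have hn1 : ‖P z‖ = 1 := hLH.2.1 z
  have hn0 : P z ≠ 0 := by
    intro h
    rw [h, norm_zero] at hn1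
    exact zero_ne_one hn1
  have hca := hs.2.1
  have hpi := Real.pi_pos
  obtain ⟨m1, m2, m3, m4, m5, m6, -⟩ := hM (P z) c hn1 hs.1 (by rw [hca]; exact hr0)
    (by rw [hca]; linarith)
  set R := rad P z with hRd
  have key : ∀ (j : ℕ) (t : ℝ), 0 ≤ t → t ≤ Real.pi / 2 - R → t ≤ j * (R / 2) →
      ∃ z' g', IsBr P z' g' ∧ P z' = mv (P z) c t ∧ rad P z' = R + t ∧ Sing P z' c ∧
        P z ∈ capA (P z') (rad P z') ∧ g' (P z) = z := by
    intro j
    induction j with
    | zero =>
      intro t ht0 ht1 ht2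
      have ht : t = 0 := le_antisymm (by simpa using ht2) ht0
      refine ⟨z, g0, ⟨hg0, hgz⟩, ?_, ?_, hs, ?_, hgz⟩
      · rw [ht, m3]
      · rw [ht, add_zero]
      · refine ⟨hn1, ?_⟩
        rw [InnerProductGeometry.angle_self hn0]
        exact hr0
    | succ j ih =>
      intro t ht0 ht1 ht2
      by_cases htj : t ≤ j * (R / 2)
      · exact ih t ht0 ht1 htj
      rw [not_le] at htj
      have hj0 : (0:ℝ) ≤ j * (R / 2) := by positivity
      obtain ⟨y, h, hy1, hy2, hy3, hy4, hy5, hy6⟩ := ih (j * (R / 2)) hj0 (by linarith) le_rfl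
      set t' := (j:ℝ) * (R / 2) with ht'
      have hτ2 : t - t' ≤ R / 2 := by
        push_cast at ht2
        rw [ht']
        linarith
      have hy1n : ‖P y‖ = 1 := hLH.2.1 y
      obtain ⟨k1, k2⟩ := hK P hLH hNP y h c (t - t') hy1 hy4 (by linarith)
        (by rw [hy3]; linarith) (by rw [hy3]; linarith)
      have hang : InnerProductGeometry.angle c (P y) = R + t' := by rw [hy4.2.1, hy3]
      obtain ⟨n1, n2, n3, n4, n5, n6, -⟩ := hM (P y) c hy1n hs.1 (by rw [hang]; linarith)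
        (by rw [hang]; linarith)
      have hw : mv (P y) c (t - t') ∈ capA (P y) (rad P y) := by
        refine ⟨n1 _, ?_⟩
        rw [n4 _ (by rw [abs_of_pos (by linarith)]; linarith), abs_of_pos (by linarith), hy3]
        linarith
      have hmv : mv (P y) c (t - t') = mv (P z) c t := by
        rw [hy2, m6 t' (t - t') hj0 (by rw [hca]; linarith)]
        congr 1; ring
      obtain ⟨l1, l2, l3⟩ := hT2 y h _ hy1 hw
      obtain ⟨-, -, g', hg', hg'z⟩ := hR P hLH (h (mv (P y) c (t - t')))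
      have hrad : rad P (h (mv (P y) c (t - t'))) = R + t := by rw [k1, hy3]; ring
      have hPz : P z ∈ capA (P (h (mv (P y) c (t - t')))) (rad P (h (mv (P y) c (t - t')))) := by
        refine ⟨hn1, ?_⟩
        rw [l1, hrad, hmv, InnerProductGeometry.angle_comm,
          m4 t (by rw [abs_of_nonneg ht0]; linarith), abs_of_nonneg ht0]
        linarith
      refine ⟨h (mv (P y) c (t - t')), g', ⟨hg', hg'z⟩, ?_, hrad, k2, hPz, ?_⟩
      · rw [l1, hmv]
      · have := l3 g' ⟨hg', hg'z⟩ (P z) ⟨hy5, by rw [l1] at hPz; exact hPz⟩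
        rw [this, hy6]
  obtain ⟨j, hj⟩ := exists_nat_ge ((Real.pi / 2 - R) / (R / 2))
  obtain ⟨z', g', h1, h2, h3, h4, h5, h6⟩ := key j (Real.pi / 2 - R) (by linarith) le_rfl
    ((div_le_iff₀ (by positivity)).1 hj)
  have h7 : rad P z' = Real.pi / 2 := by rw [h3]; ring
  exact ⟨z', g', h7, h4, h1, by rw [← h7]; exact h5, h6, h2⟩

end Pool.Agent.Q129.DP
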